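import Pool.Agent.TInv.Exist
import Pool.Agent.Hhelper55.TripleCover

/-!
MP_fafa1c_co: translation-invariant covers from frames.
-/

set_option autoImplicit false

namespace Pool.Agent.TInv

open Pool.Agent.Hhelper55.TripleCover

/-- The triples of the group `G` can be covered by `m` 3-graphs on `G` which are invariant under all left
translations `x ↦ g x` and none of which contains the complete 3-graph on four vertices. -/
def CoversInv (G : Type) [Group G] (m : ℕ) : Prop :=
  ∃ H : Fin m → Set (Finset G),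
    (∀ i, ∀ e ∈ H i, e.card = 3) ∧
    (∀ i, ∀ e ∈ H i, ∀ g : G, e.map (Equiv.mulLeft g).toEmbedding ∈ H i) ∧
    (∀ i, ¬ ∃ T : Finset G, T.card = 4 ∧ ∀ e : Finset G, e ⊆ T → e.card = 3 → e ∈ H i) ∧
    (∀ e : Finset G, e.card = 3 → ∃ i, e ∈ H i)

/-- `f3Inv G` is the least number of such 3-graphs. -/
noncomputable def f3Inv (G : Type) [Group G] : ℕ := sInf {m | CoversInv G m}

/-- The triples with an arrangement in `R`. -/
def Mem {G : Type} (R : G → G → G → Prop) : Set (Finset G) :=
  {e | e.card = 3 ∧ ∃ u ∈ e, ∃ v ∈ e, ∃ w ∈ e, u ≠ v ∧ v ≠ w ∧ u ≠ w ∧ R u v w}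

theorem mem_map {G : Type} [Group G] {R : G → G → G → Prop}
    (hR : ∀ g u v w, R u v w → R (g * u) (g * v) (g * w)) {e : Finset G} (he : e ∈ Mem R) (g : G) :
    e.map (Equiv.mulLeft g).toEmbedding ∈ Mem R := by
  obtain ⟨hc, u, hu, v, hv, w, hw, h1, h2, h3, h4⟩ := he
  refine ⟨by rw [Finset.card_map]; exact hc, g * u, ?_, g * v, ?_, g * w, ?_, ?_, ?_, ?_, hR g u v w h4⟩
  · exact Finset.mem_map_of_mem _ hu
  · exact Finset.mem_map_of_mem _ hv
  · exact Finset.mem_map_of_mem _ hw
  · exact fun e => h1 (mul_left_cancel e)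
  · exact fun e => h2 (mul_left_cancel e)
  · exact fun e => h3 (mul_left_cancel e)

theorem arrange {G : Type} [DecidableEq G] {R : G → G → G → Prop} (hsym : ∀ u v w, R u v w → R v u w)
    {x y z : G} (h : ({x, y, z} : Finset G) ∈ Mem R) : R x y z ∨ R x z y ∨ R y z x := by
  obtain ⟨-, u, hu, v, hv, w, hw, h1, h2, h3, h4⟩ := h
  simp only [Finset.mem_insert, Finset.mem_singleton] at hu hv hw
  have h5 := hsym _ _ _ h4
  rcases hu with rfl | rfl | rfl <;> rcases hv with rfl | rfl | rfl <;> rcases hw with rfl | rfl | rfl <;>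
    first
      | exact absurd rfl h1
      | exact absurd rfl h2
      | exact absurd rfl h3
      | exact Or.inl h4
      | exact Or.inl h5
      | exact Or.inr (Or.inl h4)
      | exact Or.inr (Or.inl h5)
      | exact Or.inr (Or.inr h4)
      | exact Or.inr (Or.inr h5)

theorem card_three {G : Type} [DecidableEq G] {x y z : G} (h1 : x ≠ y) (h2 : y ≠ z) (h3 : x ≠ z) :
    ({x, y, z} : Finset G).card = 3 := by
  rw [Finset.card_eq_three]
  exact ⟨x, y, z, h1, h3, h2, rfl⟩

/-- Close-pair 3-graphs contain no complete 3-graph on four vertices. -/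
theorem free_of_close {G : Type} [Group G] {L : ℕ} (F : Frame G L) {R : G → G → G → Prop}
    (hsym : ∀ u v w, R u v w → R v u w) (hnear : ∀ u v w, R u v w → F.near (w⁻¹ * u) (w⁻¹ * v))
    (hanti : ∀ u v w w', R u v w → R w w' u → False)
    (hcat : ∀ u v w w', R u v w → R u v w' → R u w w' → False) :
    ¬ ∃ T : Finset G, T.card = 4 ∧ ∀ e : Finset G, e ⊆ T → e.card = 3 → e ∈ Mem R := by
  classical
  rintro ⟨T, hT, hall⟩
  set S : G → G → ℕ := fun u v => F.size (v⁻¹ * u) with hS
  have Ssym : ∀ u v, S u v = S v u := by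
    intro u v
    show F.size (v⁻¹ * u) = F.size (u⁻¹ * v)
    rw [← F.size_inv (v⁻¹ * u)]
    congr 1
    group
  have hlt : ∀ u v w, R u v w → S u v < S u w := by
    intro u v w h
    have := F.near_size _ _ (hnear _ _ _ h)
    have k : (w⁻¹ * v)⁻¹ * (w⁻¹ * u) = v⁻¹ * u := by group
    rw [k] at this
    exact this
  obtain ⟨v, hv⟩ : ∃ v : Fin 4 → G, Function.Injective v ∧ ∀ i, v i ∈ T := by
    have e := (Finset.equivFinOfCardEq hT).symm
    exact ⟨fun i => (e i : G), fun i j hij => e.injective (Subtype.ext hij), fun i => (e i).2⟩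
  obtain ⟨hvi, hvT⟩ := hv
  have hface : ∀ i j k : Fin 4, i ≠ j → j ≠ k → i ≠ k → ({v i, v j, v k} : Finset G) ∈ Mem R := by
    intro i j k hij hjk hik
    apply hall
    · intro x hx
      simp only [Finset.mem_insert, Finset.mem_singleton] at hx
      rcases hx with rfl | rfl | rfl <;> exact hvT _
    · exact card_three (fun e => hij (hvi e)) (fun e => hjk (hvi e)) (fun e => hik (hvi e))
  obtain ⟨⟨i, j⟩, hij, hmin⟩ := (Finset.univ.filter (fun x : Fin 4 × Fin 4 => x.1 ≠ x.2)).exists_min_image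
    (fun x => S (v x.1) (v x.2)) ⟨(0, 1), by simp⟩
  simp only [Finset.mem_filter, Finset.mem_univ, true_and] at hij hmin
  have hmin' : ∀ a b : Fin 4, a ≠ b → S (v i) (v j) ≤ S (v a) (v b) := fun a b hab => hmin (a, b) hab
  have hbase : ∀ k : Fin 4, k ≠ i → k ≠ j → R (v i) (v j) (v k) := by
    intro k hki hkj
    rcases arrange hsym (hface i j k hij hkj.symm hki.symm) with h | h | h
    · exact h
    · have h1 := hlt _ _ _ h
      have h2 := hmin' i k hki.symm
      omega
    · have h1 := hlt _ _ _ h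
      have h2 := hmin' j k hkj.symm
      rw [Ssym (v j) (v i)] at h1
      omega
  obtain ⟨k, l, hki, hkj, hli, hlj, hkl⟩ := others i j hij
  have r1 := hbase k hki hkj
  have r2 := hbase l hli hlj
  rcases arrange hsym (hface i k l hki.symm hkl hli.symm) with h | h | h
  · exact hcat _ _ _ _ r1 r2 h
  · exact hcat _ _ _ _ r2 r1 h
  · exact hanti _ _ _ _ r1 h

/-- Special 3-graphs contain no complete 3-graph on four vertices. -/
theorem free_of_sp {G : Type} [Group G] {L : ℕ} (F : Frame G L) (c : Fin 5) :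
    ¬ ∃ T : Finset G, T.card = 4 ∧ ∀ e : Finset G, e ⊆ T → e.card = 3 → e ∈ Mem (F.sp c) := by
  classical
  rintro ⟨T, hT, hall⟩
  obtain ⟨v, hvi, hvT⟩ : ∃ v : Fin 4 → G, Function.Injective v ∧ ∀ i, v i ∈ T := by
    have e := (Finset.equivFinOfCardEq hT).symm
    exact ⟨fun i => (e i : G), fun i j hij => e.injective (Subtype.ext hij), fun i => (e i).2⟩
  refine F.sp_free c v hvi ?_
  intro i j k hij hjk hik
  have hmem : ({v i, v j, v k} : Finset G) ∈ Mem (F.sp c) := by
    apply hall
    · intro x hx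
      simp only [Finset.mem_insert, Finset.mem_singleton] at hx
      rcases hx with rfl | rfl | rfl <;> exact hvT _
    · exact card_three (fun e => hij (hvi e)) (fun e => hjk (hvi e)) (fun e => hik (hvi e))
  rcases arrange (R := F.sp c) (fun u v w h => F.sp_swap c u v w h) hmem with h | h | h
  · exact h
  · have h1 := F.sp_rot _ _ _ _ h
    have h2 := F.sp_rot _ _ _ _ h1
    exact F.sp_swap _ _ _ _ h2
  · exact F.sp_rot _ _ _ _ (F.sp_rot _ _ _ _ h)

end Pool.Agent.TInv
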