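import Pool.Agent.TInv.Ext

/-!
MP_fafa1c_co: the frame of a cyclic group of odd order.
-/

set_option autoImplicit false

namespace Pool.Agent.TInv

section

variable {n : ℕ}

/-- The representative of least absolute value. -/
def V (g : Multiplicative (ZMod n)) : ℤ := (Multiplicative.toAdd g).valMinAbs

/-- The distance from the unit element. -/
def sz (g : Multiplicative (ZMod n)) : ℕ := (V g).natAbs

theorem V_eq_zero (g : Multiplicative (ZMod n)) : V g = 0 ↔ g = 1 := by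
  unfold V
  rw [ZMod.valMinAbs_eq_zero]
  exact Iff.rfl

theorem sz_pos {g : Multiplicative (ZMod n)} (h : g ≠ 1) : 0 < sz g := by
  unfold sz
  rw [Int.natAbs_pos]
  exact fun e => h ((V_eq_zero g).mp e)

theorem sz_mul_le (g h : Multiplicative (ZMod n)) : sz (g * h) ≤ sz g + sz h := by
  unfold sz V
  rw [toAdd_mul]
  exact (ZMod.natAbs_valMinAbs_add_le _ _).trans (Int.natAbs_add_le _ _)

variable [NeZero n] (hn : Odd n)
include hn

theorem V_bd (g : Multiplicative (ZMod n)) : -(n : ℤ) < 2 * V g ∧ 2 * V g < n := by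
  have h := ZMod.valMinAbs_mem_Ioc (Multiplicative.toAdd g)
  obtain ⟨h1, h2⟩ := h
  obtain ⟨k, hk⟩ := hn
  unfold V
  omega

theorem V_inv (g : Multiplicative (ZMod n)) : V g⁻¹ = -V g := by
  have h := V_bd hn g
  unfold V at *
  rw [toAdd_inv, ZMod.valMinAbs_spec]
  refine ⟨?_, ?_⟩
  · push_cast
    rfl
  · constructor <;> linarith

theorem sz_inv (g : Multiplicative (ZMod n)) : sz g⁻¹ = sz g := by
  unfold sz
  rw [V_inv hn, Int.natAbs_neg]

theorem V_mul {g h : Multiplicative (ZMod n)} (h1 : 0 < V g) (h2 : 0 < V h) (h3 : 0 < V (g * h)) :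
    V (g * h) = V g + V h := by
  have b1 := V_bd hn g
  have b2 := V_bd hn h
  have b3 := V_bd hn (g * h)
  have hd : (n : ℤ) ∣ V (g * h) - (V g + V h) := by
    rw [← ZMod.intCast_zmod_eq_zero_iff_dvd]
    unfold V
    push_cast
    rw [toAdd_mul]
    ring
  obtain ⟨k, hk⟩ := hd
  have hn0 : (0 : ℤ) < n := by
    have := NeZero.pos n
    exact_mod_cast this
  have k1 : k < 1 := by
    by_contra hc
    push Not at hc
    nlinarith
  have k2 : -1 < k := by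
    by_contra hc
    push Not at hc
    nlinarith
  have k0 : k = 0 := by omega
  rw [k0, mul_zero] at hk
  linarith

end

section

variable {n : ℕ}

/-- The factor of a shift. -/
def mu (s : Bool) : ℕ := if s then 2 else 1

theorem mu_pos (s : Bool) : 0 < mu s := by cases s <;> simp [mu]

/-- `a` is before `b`. -/
def P (a b : Multiplicative (ZMod n)) : Prop := 0 < V (a⁻¹ * b)

/-- The classes of pairs of comparable lengths. -/
def cls (c : Fin 5) (p q : ℕ) : Prop :=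
  (c = 0 ∧ q < 4 * p ∧ 2 * p < q) ∨ (c = 1 ∧ q ≤ 2 * p ∧ p < q) ∨ (c = 2 ∧ q ≤ p ∧ p < 2 * q) ∨
    (c = 3 ∧ 2 * q ≤ p ∧ p < 4 * q)

/-- Ordered special triples. -/
def B (c : Fin 5) (a b d : Multiplicative (ZMod n)) : Prop :=
  (P a b ∧ P b d ∧ P a d ∧ cls c (sz (a⁻¹ * b)) (sz (b⁻¹ * d))) ∨ (c = 4 ∧ P a b ∧ P b d ∧ P d a)

/-- Special triples. -/
def spc (c : Fin 5) (x y z : Multiplicative (ZMod n)) : Prop :=
  B c x y z ∨ B c x z y ∨ B c y x z ∨ B c y z x ∨ B c z x y ∨ B c z y x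

/-- Close pairs (by the long sides). -/
def nearc (g h : Multiplicative (ZMod n)) : Prop :=
  g ≠ 1 ∧ h ≠ 1 ∧ g ≠ h ∧ (0 < V g ↔ 0 < V h) ∧ 4 * sz (h⁻¹ * g) ≤ sz g ∧ 4 * sz (h⁻¹ * g) ≤ sz h

/-- Safe elements. -/
def safec (s : Bool) (g : Multiplicative (ZMod n)) : Prop :=
  ∀ k : ℕ, ¬ (sz g * mu s < 4 ^ k ∧ 4 * 4 ^ k ≤ 5 * (sz g * mu s))

theorem B_mul (c : Fin 5) (t a b d : Multiplicative (ZMod n)) (h : B c a b d) : B c (t * a) (t * b) (t * d) := by
  have k : ∀ x y : Multiplicative (ZMod n), (t * x)⁻¹ * (t * y) = x⁻¹ * y := fun x y => by group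
  unfold B P at *
  simp only [k]
  exact h

variable [NeZero n] (hn : Odd n)
include hn

theorem P_anti {a b : Multiplicative (ZMod n)} (hab : a ≠ b) : P b a ↔ ¬ P a b := by
  unfold P
  have h1 : (b⁻¹ * a) = (a⁻¹ * b)⁻¹ := by group
  rw [h1, V_inv hn]
  have h2 : V (a⁻¹ * b) ≠ 0 := by
    rw [Ne, V_eq_zero, inv_mul_eq_one]
    exact hab
  constructor
  · intro h3 h4
    linarith
  · intro h3
    push Not at h3
    have := lt_of_le_of_ne h3 h2
    linarith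

theorem P_irr {a b : Multiplicative (ZMod n)} (h : P a b) : ¬ P b a := by
  unfold P at *
  have h1 : (b⁻¹ * a) = (a⁻¹ * b)⁻¹ := by group
  rw [h1, V_inv hn]
  linarith

theorem P_add {a b d : Multiplicative (ZMod n)} (h1 : P a b) (h2 : P b d) (h3 : P a d) :
    sz (a⁻¹ * d) = sz (a⁻¹ * b) + sz (b⁻¹ * d) := by
  unfold P at *
  have h4 : a⁻¹ * d = a⁻¹ * b * (b⁻¹ * d) := by group
  have h5 : V (a⁻¹ * d) = V (a⁻¹ * b) + V (b⁻¹ * d) := by
    rw [h4]
    exact V_mul hn h1 h2 (by rw [← h4]; exact h3)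
  unfold sz
  omega

theorem sz_comm (a b : Multiplicative (ZMod n)) : sz (a⁻¹ * b) = sz (b⁻¹ * a) := by
  have h1 : (b⁻¹ * a) = (a⁻¹ * b)⁻¹ := by group
  rw [h1, sz_inv hn]

theorem nearc_symm {g h : Multiplicative (ZMod n)} (H : nearc g h) : nearc h g := by
  obtain ⟨h1, h2, h3, h4, h5, h6⟩ := H
  refine ⟨h2, h1, h3.symm, h4.symm, ?_, ?_⟩
  · rw [sz_comm hn]; exact h6
  · rw [sz_comm hn]; exact h5

theorem tri {a b d : Multiplicative (ZMod n)} (hab : a ≠ b) (hbd : b ≠ d) (had : a ≠ d)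
    (h1 : P a b) (h2 : P b d) (h3 : P a d) :
    nearc (d⁻¹ * a) (d⁻¹ * b) ∨ nearc (a⁻¹ * b) (a⁻¹ * d) ∨ ∃ c, B c a b d := by
  have hadd := P_add hn h1 h2 h3
  have ne1 : ∀ {x y : Multiplicative (ZMod n)}, x ≠ y → x⁻¹ * y ≠ 1 := by
    intro x y hxy e
    rw [inv_mul_eq_one] at e
    exact hxy e
  have p0 := sz_pos (ne1 hab)
  have q0 := sz_pos (ne1 hbd)
  by_cases c1 : 4 * sz (a⁻¹ * b) ≤ sz (b⁻¹ * d)
  · left
    refine ⟨ne1 had.symm, ne1 hbd.symm, fun e => hab (mul_left_cancel e), ?_, ?_, ?_⟩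
    · have k1 : ¬ P d a := P_irr hn h3
      have k2 : ¬ P d b := P_irr hn h2
      exact iff_of_false k1 k2
    · have k : (d⁻¹ * b)⁻¹ * (d⁻¹ * a) = b⁻¹ * a := by group
      rw [k, sz_comm hn b a, sz_comm hn d a]
      omega
    · have k : (d⁻¹ * b)⁻¹ * (d⁻¹ * a) = b⁻¹ * a := by group
      rw [k, sz_comm hn b a, sz_comm hn d b]
      omega
  · by_cases c2 : 4 * sz (b⁻¹ * d) ≤ sz (a⁻¹ * b)
    · right
      left
      refine ⟨ne1 hab, ne1 had, fun e => hbd (mul_left_cancel e), iff_of_true h1 h3, ?_, ?_⟩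
      · have k : (a⁻¹ * d)⁻¹ * (a⁻¹ * b) = d⁻¹ * b := by group
        rw [k, sz_comm hn d b]
        omega
      · have k : (a⁻¹ * d)⁻¹ * (a⁻¹ * b) = d⁻¹ * b := by group
        rw [k, sz_comm hn d b]
        omega
    · right
      right
      push Not at c1 c2
      by_cases d1 : 2 * sz (a⁻¹ * b) < sz (b⁻¹ * d)
      · exact ⟨0, Or.inl ⟨h1, h2, h3, Or.inl ⟨rfl, c1, d1⟩⟩⟩
      · by_cases d2 : sz (a⁻¹ * b) < sz (b⁻¹ * d)
        · exact ⟨1, Or.inl ⟨h1, h2, h3, Or.inr (Or.inl ⟨rfl, by omega, d2⟩)⟩⟩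
        · by_cases d3 : sz (a⁻¹ * b) < 2 * sz (b⁻¹ * d)
          · exact ⟨2, Or.inl ⟨h1, h2, h3, Or.inr (Or.inr (Or.inl ⟨rfl, by omega, d3⟩))⟩⟩
          · exact ⟨3, Or.inl ⟨h1, h2, h3, Or.inr (Or.inr (Or.inr ⟨rfl, by omega, c2⟩))⟩⟩

theorem coverc (x y z : Multiplicative (ZMod n)) (hxy : x ≠ y) (hyz : y ≠ z) (hxz : x ≠ z) :
    nearc (z⁻¹ * x) (z⁻¹ * y) ∨ nearc (y⁻¹ * x) (y⁻¹ * z) ∨ nearc (x⁻¹ * y) (x⁻¹ * z) ∨ ∃ c, spc c x y z := by
  have a1 := P_anti hn hxy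
  have a2 := P_anti hn hyz
  have a3 := P_anti hn hxz
  by_cases h1 : P x y
  · by_cases h2 : P y z
    · by_cases h3 : P x z
      · rcases tri hn hxy hyz hxz h1 h2 h3 with h | h | ⟨c, h⟩
        · exact Or.inl h
        · exact Or.inr (Or.inr (Or.inl h))
        · exact Or.inr (Or.inr (Or.inr ⟨c, Or.inl h⟩))
      · have h3' : P z x := a3.mpr h3
        exact Or.inr (Or.inr (Or.inr ⟨4, Or.inl (Or.inr ⟨rfl, h1, h2, h3'⟩)⟩))
    · have h2' : P z y := a2.mpr h2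
      by_cases h3 : P x z
      · rcases tri hn hxz hyz.symm hxy h3 h2' h1 with h | h | ⟨c, h⟩
        · exact Or.inr (Or.inl h)
        · exact Or.inr (Or.inr (Or.inl (nearc_symm hn h)))
        · exact Or.inr (Or.inr (Or.inr ⟨c, Or.inr (Or.inl h)⟩))
      · have h3' : P z x := a3.mpr h3
        rcases tri hn hxz.symm hxy hyz.symm h3' h1 h2' with h | h | ⟨c, h⟩
        · exact Or.inr (Or.inl (nearc_symm hn h))
        · exact Or.inl h
        · exact Or.inr (Or.inr (Or.inr ⟨c, Or.inr (Or.inr (Or.inr (Or.inr (Or.inl h))))⟩))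
  · have h1' : P y x := a1.mpr h1
    by_cases h2 : P y z
    · by_cases h3 : P x z
      · rcases tri hn hxy.symm hxz hyz h1' h3 h2 with h | h | ⟨c, h⟩
        · exact Or.inl (nearc_symm hn h)
        · exact Or.inr (Or.inl h)
        · exact Or.inr (Or.inr (Or.inr ⟨c, Or.inr (Or.inr (Or.inl h))⟩))
      · have h3' : P z x := a3.mpr h3
        rcases tri hn hyz hxz.symm hxy.symm h2 h3' h1' with h | h | ⟨c, h⟩
        · exact Or.inr (Or.inr (Or.inl h))
        · exact Or.inr (Or.inl (nearc_symm hn h))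
        · exact Or.inr (Or.inr (Or.inr ⟨c, Or.inr (Or.inr (Or.inr (Or.inl h)))⟩))
    · have h2' : P z y := a2.mpr h2
      by_cases h3 : P x z
      · exact Or.inr (Or.inr (Or.inr ⟨4, Or.inr (Or.inl (Or.inr ⟨rfl, h3, h2', h1'⟩))⟩))
      · have h3' : P z x := a3.mpr h3
        rcases tri hn hyz.symm hxy.symm hxz.symm h2' h1' h3' with h | h | ⟨c, h⟩
        · exact Or.inr (Or.inr (Or.inl (nearc_symm hn h)))
        · exact Or.inl (nearc_symm hn h)
        · exact Or.inr (Or.inr (Or.inr ⟨c, Or.inr (Or.inr (Or.inr (Or.inr (Or.inr h))))⟩))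

end

end Pool.Agent.TInv
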