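import Pool.Agent.TInv.Cyc

/-!
MP_fafa1c_co: the frame of a cyclic group of odd order, second part.
-/

set_option autoImplicit false

namespace Pool.Agent.TInv

variable {n : ℕ}

theorem spc_swap (c : Fin 5) (x y z : Multiplicative (ZMod n)) (h : spc c x y z) : spc c y x z := by
  unfold spc at *
  tauto

theorem spc_rot (c : Fin 5) (x y z : Multiplicative (ZMod n)) (h : spc c x y z) : spc c y z x := by
  unfold spc at *
  tauto

theorem spc_mul (c : Fin 5) (t x y z : Multiplicative (ZMod n)) (h : spc c x y z) :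
    spc c (t * x) (t * y) (t * z) := by
  unfold spc at *
  rcases h with h | h | h | h | h | h
  · exact Or.inl (B_mul _ _ _ _ _ h)
  · exact Or.inr (Or.inl (B_mul _ _ _ _ _ h))
  · exact Or.inr (Or.inr (Or.inl (B_mul _ _ _ _ _ h)))
  · exact Or.inr (Or.inr (Or.inr (Or.inl (B_mul _ _ _ _ _ h))))
  · exact Or.inr (Or.inr (Or.inr (Or.inr (Or.inl (B_mul _ _ _ _ _ h)))))
  · exact Or.inr (Or.inr (Or.inr (Or.inr (Or.inr (B_mul _ _ _ _ _ h)))))

variable [NeZero n] (hn : Odd n)
include hn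

theorem sz_two (g : Multiplicative (ZMod n)) : 2 * sz g ≤ n - 1 := by
  have := V_bd hn g
  unfold sz
  omega

theorem sz_lt (g : Multiplicative (ZMod n)) : sz g < n := by
  have := sz_two hn g
  have := NeZero.pos n
  omega

theorem near_close {g h : Multiplicative (ZMod n)} (H : nearc g h) :
    4 * sz g ≤ 5 * sz h ∧ 4 * sz h ≤ 5 * sz g ∧ 0 < sz g ∧ 0 < sz h ∧ 0 < sz (h⁻¹ * g) := by
  obtain ⟨h1, h2, h3, h4, h5, h6⟩ := H
  have k1 : sz g ≤ sz h + sz (h⁻¹ * g) := by
    have := sz_mul_le h (h⁻¹ * g)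
    rwa [show h * (h⁻¹ * g) = g by group] at this
  have k2 : sz h ≤ sz g + sz (h⁻¹ * g) := by
    have := sz_mul_le g (g⁻¹ * h)
    rw [show g * (g⁻¹ * h) = h by group, sz_comm hn g h] at this
    exact this
  have k3 : 0 < sz (h⁻¹ * g) := by
    apply sz_pos
    intro e
    rw [inv_mul_eq_one] at e
    exact h3 e.symm
  refine ⟨by omega, by omega, sz_pos h1, sz_pos h2, k3⟩

theorem near_sizec {g h : Multiplicative (ZMod n)} (H : nearc g h) : sz (h⁻¹ * g) < sz g := by
  obtain ⟨-, -, h1, -, -⟩ := near_close hn H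
  obtain ⟨-, -, -, -, h5, -⟩ := H
  omega

theorem near_safec {g h : Multiplicative (ZMod n)} (H : nearc g h) : ∃ s, safec s g ∧ safec s h := by
  obtain ⟨h1, h2, h3, h4, -⟩ := near_close hn H
  by_contra hcon
  push Not at hcon
  have hf := hcon false
  have ht := hcon true
  unfold safec at hf ht
  have e1 : ∃ k : ℕ, (sz g < 4 ^ k ∧ 4 * 4 ^ k ≤ 5 * sz g) ∨ (sz h < 4 ^ k ∧ 4 * 4 ^ k ≤ 5 * sz h) := by
    by_contra hc
    push Not at hc
    apply hf
    · intro k hk
      rw [show mu false = 1 from rfl, mul_one] at hk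
      exact absurd hk.2 (not_le.mpr ((hc k).1 hk.1))
    · intro k hk
      rw [show mu false = 1 from rfl, mul_one] at hk
      exact absurd hk.2 (not_le.mpr ((hc k).2 hk.1))
  have e2 : ∃ k : ℕ, (sz g * 2 < 4 ^ k ∧ 4 * 4 ^ k ≤ 5 * (sz g * 2)) ∨ (sz h * 2 < 4 ^ k ∧ 4 * 4 ^ k ≤ 5 * (sz h * 2)) := by
    by_contra hc
    push Not at hc
    apply ht
    · intro k hk
      rw [show mu true = 2 from rfl] at hk
      exact absurd hk.2 (not_le.mpr ((hc k).1 hk.1))
    · intro k hk
      rw [show mu true = 2 from rfl] at hk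
      exact absurd hk.2 (not_le.mpr ((hc k).2 hk.1))
  obtain ⟨k, hk⟩ := e1
  obtain ⟨l, hl⟩ := e2
  rcases Nat.lt_or_ge k l with hkl | hkl
  · have : 4 * 4 ^ k ≤ 4 ^ l := by
      rw [← pow_succ']
      exact Nat.pow_le_pow_right (by norm_num) hkl
    omega
  · have : 4 ^ l ≤ 4 ^ k := Nat.pow_le_pow_right (by norm_num) hkl
    omega

omit [NeZero n] hn in
theorem log_eq {a b : ℕ} (ha : 0 < a) (hab : a ≤ b) (hs : ∀ k : ℕ, ¬ (a < 4 ^ k ∧ 4 * 4 ^ k ≤ 5 * a))
    (hba : 4 * b ≤ 5 * a) : Nat.log 4 a = Nat.log 4 b := by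
  apply le_antisymm (Nat.log_mono_right hab)
  by_contra hc
  push Not at hc
  apply hs (Nat.log 4 b)
  constructor
  · exact Nat.lt_pow_of_log_lt (by norm_num) hc
  · have : 4 ^ Nat.log 4 b ≤ b := Nat.pow_log_le_self 4 (by omega)
    omega

theorem near_labc {g h : Multiplicative (ZMod n)} (s : Bool) (H : nearc g h) (hs1 : safec s g) (hs2 : safec s h) :
    Nat.log 4 (sz g * mu s) = Nat.log 4 (sz h * mu s) ∧
      Nat.log 4 (sz (h⁻¹ * g) * mu s) ≠ Nat.log 4 (sz g * mu s) := by
  obtain ⟨h1, h2, h3, h4, h5⟩ := near_close hn H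
  obtain ⟨-, -, -, -, h6, -⟩ := H
  have hmu := mu_pos s
  constructor
  · rcases le_total (sz g) (sz h) with hle | hle
    · apply log_eq (Nat.mul_pos h3 hmu) (Nat.mul_le_mul_right _ hle) hs1
      calc 4 * (sz h * mu s) = (4 * sz h) * mu s := by ring
        _ ≤ (5 * sz g) * mu s := Nat.mul_le_mul_right _ h2
        _ = 5 * (sz g * mu s) := by ring
    · symm
      apply log_eq (Nat.mul_pos h4 hmu) (Nat.mul_le_mul_right _ hle) hs2
      calc 4 * (sz g * mu s) = (4 * sz g) * mu s := by ring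
        _ ≤ (5 * sz h) * mu s := Nat.mul_le_mul_right _ h1
        _ = 5 * (sz h * mu s) := by ring
  · intro e
    have k1 : 0 < sz (h⁻¹ * g) * mu s := by positivity
    have k2 : Nat.log 4 (sz (h⁻¹ * g) * mu s * 4) = Nat.log 4 (sz (h⁻¹ * g) * mu s) + 1 :=
      Nat.log_mul_base (by norm_num) k1.ne'
    have k3 : sz (h⁻¹ * g) * mu s * 4 ≤ sz g * mu s := by
      calc sz (h⁻¹ * g) * mu s * 4 = (4 * sz (h⁻¹ * g)) * mu s := by ring
        _ ≤ sz g * mu s := Nat.mul_le_mul_right _ h6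
    have k4 := Nat.log_mono_right (b := 4) k3
    omega

omit [NeZero n] hn in
theorem exists_safec (g : Multiplicative (ZMod n)) (hg : g ≠ 1) : ∃ s, safec s g := by
  by_contra hcon
  push Not at hcon
  have hf := hcon false
  have ht := hcon true
  unfold safec at hf ht
  push Not at hf ht
  obtain ⟨k, hk1, hk2⟩ := hf
  obtain ⟨l, hl1, hl2⟩ := ht
  rw [show mu false = 1 from rfl, mul_one] at hk1 hk2
  rw [show mu true = 2 from rfl] at hl1 hl2
  have := sz_pos hg
  rcases Nat.lt_or_ge k l with hkl | hkl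
  · have : 4 * 4 ^ k ≤ 4 ^ l := by
      rw [← pow_succ']
      exact Nat.pow_le_pow_right (by norm_num) hkl
    omega
  · have : 4 ^ l ≤ 4 ^ k := Nat.pow_le_pow_right (by norm_num) hkl
    omega

/-- Ordered special triples from special triples. -/
theorem cls_of {c : Fin 5} (hc : c ≠ 4) {x y z : Multiplicative (ZMod n)} (h : spc c x y z)
    (h1 : P x y) (h2 : P y z) (h3 : P x z) : cls c (sz (x⁻¹ * y)) (sz (y⁻¹ * z)) := by
  have i1 := P_irr hn h1
  have i2 := P_irr hn h2
  have i3 := P_irr hn h3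
  unfold spc B at h
  rcases h with h | h | h | h | h | h
  · rcases h with ⟨-, -, -, h⟩ | ⟨h, -⟩
    · exact h
    · exact absurd h hc
  · rcases h with ⟨-, h, -, -⟩ | ⟨h, -⟩
    · exact absurd h i2
    · exact absurd h hc
  · rcases h with ⟨h, -, -, -⟩ | ⟨h, -⟩
    · exact absurd h i1
    · exact absurd h hc
  · rcases h with ⟨-, h, -, -⟩ | ⟨h, -⟩
    · exact absurd h i3
    · exact absurd h hc
  · rcases h with ⟨h, -, -, -⟩ | ⟨h, -⟩
    · exact absurd h i3
    · exact absurd h hc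
  · rcases h with ⟨h, -, -, -⟩ | ⟨h, -⟩
    · exact absurd h i2
    · exact absurd h hc

/-- The longest side determines the middle point. -/
theorem mid_of {c : Fin 5} (hc : c ≠ 4) {x y z : Multiplicative (ZMod n)} (hxy : x ≠ y) (hyz : y ≠ z)
    (hxz : x ≠ z) (h : spc c x y z) (h1 : P x y) (hm1 : sz (x⁻¹ * z) ≤ sz (x⁻¹ * y))
    (hm2 : sz (y⁻¹ * z) ≤ sz (x⁻¹ * y)) : P x z ∧ P z y := by
  have ne1 : ∀ {x y : Multiplicative (ZMod n)}, x ≠ y → x⁻¹ * y ≠ 1 := by
    intro x y hxy e
    rw [inv_mul_eq_one] at e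
    exact hxy e
  have p1 := sz_pos (ne1 hxy)
  have p2 := sz_pos (ne1 hyz)
  have p3 := sz_pos (ne1 hxz)
  have i1 := P_irr hn h1
  unfold spc B at h
  rcases h with h | h | h | h | h | h
  · rcases h with ⟨g1, g2, g3, -⟩ | ⟨h, -⟩
    · have := P_add hn g1 g2 g3
      omega
    · exact absurd h hc
  · rcases h with ⟨g1, g2, g3, -⟩ | ⟨h, -⟩
    · exact ⟨g1, g2⟩
    · exact absurd h hc
  · rcases h with ⟨g1, g2, g3, -⟩ | ⟨h, -⟩
    · exact absurd g1 i1
    · exact absurd h hc
  · rcases h with ⟨g1, g2, g3, -⟩ | ⟨h, -⟩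
    · exact absurd g3 i1
    · exact absurd h hc
  · rcases h with ⟨g1, g2, g3, -⟩ | ⟨h, -⟩
    · have := P_add hn g1 g2 g3
      rw [sz_comm hn z y, sz_comm hn z x] at this
      omega
    · exact absurd h hc
  · rcases h with ⟨g1, g2, g3, -⟩ | ⟨h, -⟩
    · exact absurd g2 i1
    · exact absurd h hc

/-- Four ordered points. -/
theorem four {c : Fin 5} (hc : c ≠ 4) {a d e b : Multiplicative (ZMod n)} (had : P a d) (hde : P d e) (heb : P e b)
    (hae : P a e) (hdb : P d b) (hab : P a b) (h1 : spc c a d e) (h2 : spc c d e b) (h3 : spc c a e b)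
    (h4 : spc c a d b) : False := by
  have e1 := P_add hn had hde hae
  have e2 := P_add hn hde heb hdb
  have c1 := cls_of hn hc h1 had hde hae
  have c2 := cls_of hn hc h2 hde heb hdb
  have c3 := cls_of hn hc h3 hae heb hab
  have c4 := cls_of hn hc h4 had hdb hab
  rw [e1] at c3
  rw [e2] at c4
  unfold cls at *
  omega

omit [NeZero n] hn in
theorem others : ∀ i j : Fin 4, i ≠ j → ∃ k l : Fin 4, k ≠ i ∧ k ≠ j ∧ l ≠ i ∧ l ≠ j ∧ k ≠ l := by decide

theorem spc_free (c : Fin 5) (v : Fin 4 → Multiplicative (ZMod n)) (hv : Function.Injective v)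
    (h : ∀ i j k : Fin 4, i ≠ j → j ≠ k → i ≠ k → spc c (v i) (v j) (v k)) : False := by
  have hne : ∀ {i j : Fin 4}, i ≠ j → v i ≠ v j := fun hij e => hij (hv e)
  by_cases hc : c = 4
  · subst hc
    have cyc : ∀ x y z : Multiplicative (ZMod n), spc 4 x y z → P x y → P y z ∧ P z x := by
      intro x y z hs hp
      have i1 := P_irr hn hp
      have hcls : ∀ p q, ¬ cls 4 p q := by
        intro p q hh
        unfold cls at hh
        rcases hh with ⟨h, -⟩ | ⟨h, -⟩ | ⟨h, -⟩ | ⟨h, -⟩ <;> exact absurd h (by decide)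
      unfold spc B at hs
      rcases hs with hs | hs | hs | hs | hs | hs
      · rcases hs with ⟨-, -, -, hs⟩ | ⟨-, -, g2, g3⟩
        · exact absurd hs (hcls _ _)
        · exact ⟨g2, g3⟩
      · rcases hs with ⟨-, -, -, hs⟩ | ⟨-, -, g2, g3⟩
        · exact absurd hs (hcls _ _)
        · exact absurd g3 i1
      · rcases hs with ⟨-, -, -, hs⟩ | ⟨-, g1, g2, g3⟩
        · exact absurd hs (hcls _ _)
        · exact absurd g1 i1
      · rcases hs with ⟨-, -, -, hs⟩ | ⟨-, g1, g2, g3⟩
        · exact absurd hs (hcls _ _)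
        · exact ⟨g1, g2⟩
      · rcases hs with ⟨-, -, -, hs⟩ | ⟨-, g1, g2, g3⟩
        · exact absurd hs (hcls _ _)
        · exact ⟨g3, g1⟩
      · rcases hs with ⟨-, -, -, hs⟩ | ⟨-, g1, g2, g3⟩
        · exact absurd hs (hcls _ _)
        · exact absurd g2 i1
    have main : ∀ i j k l : Fin 4, i ≠ j → k ≠ i → k ≠ j → l ≠ i → l ≠ j → k ≠ l → P (v i) (v j) → False := by
      intro i j k l hij hki hkj hli hlj hkl hp
      have f1 := cyc _ _ _ (h i j k hij hkj.symm hki.symm) hp
      have f2 := cyc _ _ _ (h i j l hij hlj.symm hli.symm) hp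
      have f3 := h k i l hki hli.symm hkl
      have f4 := (cyc _ _ _ f3 f1.2).1
      exact P_irr hn f2.2 f4
    by_cases hp : P (v 0) (v 1)
    · exact main 0 1 2 3 (by decide) (by decide) (by decide) (by decide) (by decide) (by decide) hp
    · exact main 1 0 2 3 (by decide) (by decide) (by decide) (by decide) (by decide) (by decide)
        ((P_anti hn (hne (by decide))).mpr hp)
  · obtain ⟨⟨i, j⟩, hij, hmax⟩ := (Finset.univ.filter (fun x : Fin 4 × Fin 4 => x.1 ≠ x.2)).exists_max_image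
      (fun x => sz ((v x.1)⁻¹ * v x.2)) ⟨(0, 1), by simp⟩
    simp only [Finset.mem_filter, Finset.mem_univ, true_and] at hij hmax
    have hmax' : ∀ a b : Fin 4, a ≠ b → sz ((v a)⁻¹ * v b) ≤ sz ((v i)⁻¹ * v j) := fun a b hab => hmax (a, b) hab
    have main : ∀ i j : Fin 4, i ≠ j → P (v i) (v j) →
        (∀ a b : Fin 4, a ≠ b → sz ((v a)⁻¹ * v b) ≤ sz ((v i)⁻¹ * v j)) → False := by
      intro i j hij hp hm
      have main2 : ∀ k l : Fin 4, k ≠ i → k ≠ j → l ≠ i → l ≠ j → k ≠ l → P (v k) (v l) → False := by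
        intro k l hki hkj hli hlj hkl hkl'
        have m1 := mid_of hn hc (hne hij) (hne hkj.symm) (hne hki.symm) (h i j k hij hkj.symm hki.symm) hp
          (hm i k hki.symm) (hm j k hkj.symm)
        have m2 := mid_of hn hc (hne hij) (hne hlj.symm) (hne hli.symm) (h i j l hij hlj.symm hli.symm) hp
          (hm i l hli.symm) (hm j l hlj.symm)
        exact four hn hc m1.1 hkl' m2.2 m2.1 m1.2 hp (h i k l hki.symm hkl hli.symm) (h k l j hkl hlj hkj)
          (h i l j hli.symm hlj hij) (h i k j hki.symm hkj hij)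
      obtain ⟨k, l, hki, hkj, hli, hlj, hkl⟩ := others i j hij
      by_cases hq : P (v k) (v l)
      · exact main2 k l hki hkj hli hlj hkl hq
      · exact main2 l k hli hlj hki hkj hkl.symm ((P_anti hn (hne hkl)).mpr hq)
    by_cases hp : P (v i) (v j)
    · exact main i j hij hp hmax'
    · refine main j i (Ne.symm hij) ((P_anti hn (hne hij)).mpr hp) ?_
      intro a b hab
      rw [sz_comm hn (v j) (v i)]
      exact hmax' a b hab

/-- The frame of a cyclic group of odd order. -/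
def cycFrame : Frame (Multiplicative (ZMod n)) (Nat.log 4 (n - 1) + 1) where
  pos g := 0 < V g
  near := nearc
  size := sz
  lab s g := Nat.log 4 (sz g * mu s)
  safe := safec
  sp := spc
  bd := n
  size_lt := sz_lt hn
  size_inv := sz_inv hn
  lab_inv s g := by rw [sz_inv hn]
  safe_inv s g := by unfold safec; rw [sz_inv hn]
  lab_lt s g _ := by
    have h1 := sz_two hn g
    have h2 : sz g * mu s ≤ n - 1 := by
      cases s
      · rw [show mu false = 1 from rfl]; omega
      · rw [show mu true = 2 from rfl]; omega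
    have := Nat.log_mono_right (b := 4) h2
    omega
  near_symm g h H := nearc_symm hn H
  near_ne g h H := ⟨H.1, H.2.1, H.2.2.1⟩
  near_pos g h H := H.2.2.2.1
  near_anti g h H := by
    have h1 : V g ≠ 0 := fun e => H.1 ((V_eq_zero g).mp e)
    rw [V_inv hn]
    constructor
    · intro h2 h3
      linarith
    · intro h2
      push Not at h2
      have := lt_of_le_of_ne h2 h1
      linarith
  near_size g h H := near_sizec hn H
  near_safe g h H := near_safec hn H
  near_lab g h s H h1 h2 := near_labc hn s H h1 h2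
  sp_swap := spc_swap
  sp_rot := spc_rot
  sp_mul := spc_mul
  cover := coverc hn
  sp_free c v hv h := spc_free hn c v hv h

theorem cycFrame_full : (cycFrame (n := n) hn).Full := by
  constructor
  · intro g hg
    show 0 < V g⁻¹ ↔ ¬ 0 < V g
    have h1 : V g ≠ 0 := fun e => hg ((V_eq_zero g).mp e)
    rw [V_inv hn]
    constructor
    · intro h2 h3
      linarith
    · intro h2
      push Not at h2
      have := lt_of_le_of_ne h2 h1
      linarith
  · intro g hg
    exact exists_safec g hg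

omit [NeZero n] hn in
theorem pow_lab_le (h3 : 3 ≤ n) : 2 ^ (Nat.log 4 (n - 1) + 1) ≤ n := by
  have h1 : 4 ^ Nat.log 4 (n - 1) ≤ n - 1 := Nat.pow_log_le_self 4 (by omega)
  rcases Nat.eq_zero_or_pos (Nat.log 4 (n - 1)) with h0 | h0
  · rw [h0]
    omega
  · have h2 : 2 ^ (Nat.log 4 (n - 1) + 1) ≤ 2 ^ (2 * Nat.log 4 (n - 1)) :=
      Nat.pow_le_pow_right (by norm_num) (by omega)
    rw [pow_mul] at h2
    norm_num at h2
    omega

end Pool.Agent.TInv
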