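import Pool.Agent.TInv.Cyc2

/-!
MP_fafa1c_co: existence of frames with few labels.
-/

set_option autoImplicit false

namespace Pool.Agent.TInv

open scoped Classical in
/-- A frame on `G` from a frame on a normal subgroup and a full frame on the quotient. -/
noncomputable def Frame.extN {G : Type} [Group G] (N : Subgroup G) [N.Normal] {L1 L2 : ℕ}
    (FQ : Frame (G ⧸ N) L1) (hQ : FQ.Full) (FN : Frame N L2) : Frame G (L2 + L1) :=
  Frame.ext FQ FN hQ (QuotientGroup.mk' N) (fun g => if h : g ∈ N then ⟨g, h⟩ else 1)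
    (by
      intro g h hg hh
      have hg' : g ∈ N := by
        rw [QuotientGroup.mk'_apply, QuotientGroup.eq_one_iff] at hg
        exact hg
      have hh' : h ∈ N := by
        rw [QuotientGroup.mk'_apply, QuotientGroup.eq_one_iff] at hh
        exact hh
      have hgh : g * h ∈ N := mul_mem hg' hh'
      simp only [hg', hh', hgh, dif_pos]
      rfl)
    (by
      intro g hg h1
      have hg' : g ∈ N := by
        rw [QuotientGroup.mk'_apply, QuotientGroup.eq_one_iff] at hg
        exact hg
      simp only [hg', dif_pos] at h1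
      exact congrArg Subtype.val h1)

theorem Frame.extN_full {G : Type} [Group G] (N : Subgroup G) [N.Normal] {L1 L2 : ℕ}
    (FQ : Frame (G ⧸ N) L1) (hQ : FQ.Full) (FN : Frame N L2) (hN : FN.Full) : (Frame.extN N FQ hQ FN).Full :=
  Frame.ext_full _ _ _ _ _ _ _ hN

/-- Groups of odd prime order. -/
theorem prime_frame (G : Type) [Group G] [Finite G] (p : ℕ) (hp : p.Prime) (h2 : Odd p) (hG : Nat.card G = p) :
    ∃ L : ℕ, 2 ^ L ≤ p ∧ ∃ F : Frame G L, F.Full := by
  have : Fact p.Prime := ⟨hp⟩
  have : NeZero p := ⟨hp.ne_zero⟩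
  have hcyc : IsCyclic G := isCyclic_of_prime_card hG
  have e : G ≃* Multiplicative (ZMod p) := by
    apply mulEquivOfCyclicCardEq
    rw [hG, Nat.card_eq_fintype_card, Fintype.card_multiplicative, ZMod.card]
  have h3 : 3 ≤ p := by
    have := hp.two_le
    obtain ⟨k, hk⟩ := h2
    omega
  exact ⟨_, pow_lab_le h3, (cycFrame h2).comap e.toMonoidHom e.injective, Frame.comap_full _ _ _ (cycFrame_full h2)⟩

theorem abel_frame (n : ℕ) : ∀ (G : Type) [CommGroup G] [Finite G], Nat.card G = n → Odd n →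
    ∃ L : ℕ, 2 ^ L ≤ n ∧ ∃ F : Frame G L, F.Full := by
  induction n using Nat.strong_induction_on with
  | _ n ih =>
    intro G _ _ hG hodd
    rcases Nat.lt_or_ge 1 n with h1 | h1
    · obtain ⟨p, hp, hpn⟩ := Nat.exists_prime_and_dvd (show n ≠ 1 by omega)
      have hpodd : Odd p := Odd.of_dvd_nat hodd hpn
      have : Fact p.Prime := ⟨hp⟩
      obtain ⟨x, hx⟩ := exists_prime_orderOf_dvd_card' (G := G) p (by rw [hG]; exact hpn)
      set N : Subgroup G := Subgroup.zpowers x with hNdef
      have hN : Nat.card N = p := by rw [hNdef, Nat.card_zpowers, hx]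
      have hcard := Subgroup.card_eq_card_quotient_mul_card_subgroup N
      rw [hG, hN] at hcard
      have hp1 := hp.one_lt
      have hq : Nat.card (G ⧸ N) < n := by
        have hpos : 0 < Nat.card (G ⧸ N) := Nat.card_pos
        rw [hcard]
        nlinarith
      have hqo : Odd (Nat.card (G ⧸ N)) := Odd.of_dvd_nat hodd ⟨p, hcard⟩
      obtain ⟨L1, hL1, FQ, hQ⟩ := ih _ hq (G ⧸ N) rfl hqo
      obtain ⟨L2, hL2, FN, hFN⟩ := prime_frame N p hp hpodd hN
      refine ⟨L2 + L1, ?_, Frame.extN N FQ hQ FN, Frame.extN_full N FQ hQ FN hFN⟩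
      rw [hcard, pow_add, mul_comm]
      exact Nat.mul_le_mul hL1 hL2
    · have h0 : n = 1 := by
        obtain ⟨k, hk⟩ := hodd
        omega
      have : Subsingleton G := (Nat.card_eq_one_iff_unique.mp (hG.trans h0)).1
      exact ⟨0, by omega, trivFrame G, trivFrame_full G⟩

theorem solv_frame (n : ℕ) : ∀ (G : Type) [Group G] [Finite G], Group.IsSolvable G → Nat.card G = n → Odd n →
    ∃ L : ℕ, 2 ^ L ≤ n ∧ ∃ F : Frame G L, F.Full := by
  induction n using Nat.strong_induction_on with
  | _ n ih =>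
    intro G _ _ hsol hG hodd
    rcases Nat.lt_or_ge 1 n with h1 | h1
    · have hnt : Nontrivial G := Finite.one_lt_card_iff_nontrivial.mp (by rw [hG]; exact h1)
      set N : Subgroup G := commutator G with hNdef
      have hlt : N < ⊤ := Group.IsSolvable.commutator_lt_top_of_nontrivial G
      have hcard := Subgroup.card_eq_card_quotient_mul_card_subgroup N
      rw [hG] at hcard
      have hNlt : Nat.card N < n := by
        rw [← hG]
        rcases Nat.lt_or_ge (Nat.card N) (Nat.card G) with h | h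
        · exact h
        · exact absurd (Subgroup.eq_top_of_le_card N h) hlt.ne
      have hNo : Odd (Nat.card N) := Odd.of_dvd_nat hodd (Dvd.intro_left _ hcard.symm)
      have hQo : Odd (Nat.card (G ⧸ N)) := Odd.of_dvd_nat hodd (Dvd.intro _ hcard.symm)
      obtain ⟨L2, hL2, FN, hFN⟩ := ih _ hNlt N inferInstance rfl hNo
      obtain ⟨L1, hL1, FQ, hQ⟩ := abel_frame (Nat.card (G ⧸ N)) (Abelianization G) rfl hQo
      have hL1' : 2 ^ L1 ≤ Nat.card (G ⧸ N) := hL1
      refine ⟨L2 + L1, ?_, Frame.extN N FQ hQ FN, Frame.extN_full N FQ hQ FN hFN⟩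
      rw [hcard, pow_add, mul_comm]
      exact Nat.mul_le_mul hL1' hL2
    · have h0 : n = 1 := by
        obtain ⟨k, hk⟩ := hodd
        omega
      have : Subsingleton G := (Nat.card_eq_one_iff_unique.mp (hG.trans h0)).1
      exact ⟨0, by omega, trivFrame G, trivFrame_full G⟩

/-- Solvable groups with a normal subgroup of order at most two and odd index. -/
theorem exists_frame (G : Type) [Group G] [Finite G] (hsol : Group.IsSolvable G) (Z : Subgroup G) [Z.Normal]
    (hZ : Nat.card Z ≤ 2) (hodd : Odd Z.index) : ∃ L : ℕ, 2 ^ L ≤ Nat.card G ∧ Nonempty (Frame G L) := by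
  have hcard := Subgroup.card_eq_card_quotient_mul_card_subgroup Z
  have hpos : 0 < Nat.card Z := Nat.card_pos
  obtain ⟨L1, hL1, FQ, hQ⟩ := solv_frame (Nat.card (G ⧸ Z)) (G ⧸ Z) inferInstance rfl hodd
  rcases Nat.lt_or_ge (Nat.card Z) 2 with h | h
  · have : Subsingleton Z := (Nat.card_eq_one_iff_unique.mp (show Nat.card Z = 1 by omega)).1
    refine ⟨0 + L1, ?_, ⟨Frame.extN Z FQ hQ (trivFrame Z)⟩⟩
    rw [hcard, zero_add]
    nlinarith
  · refine ⟨1 + L1, ?_, ⟨Frame.extN Z FQ hQ (smallFrame Z hZ)⟩⟩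
    rw [hcard, show Nat.card Z = 2 by omega, pow_add]
    nlinarith

end Pool.Agent.TInv
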