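import Pool.Agent.TInv.Frame

/-!
MP_fafa1c_co: frames of extensions.
-/

set_option autoImplicit false

namespace Pool.Agent.TInv

open scoped Classical in
/-- A frame on `G` from a frame on the quotient (full) and a frame on the kernel. -/
noncomputable def Frame.ext {G Q D : Type} [Group G] [Group Q] [Group D] {L1 L2 : ℕ}
    (FQ : Frame Q L1) (FD : Frame D L2) (hQ : FQ.Full) (π : G →* Q) (ε : G → D)
    (hε : ∀ g h, π g = 1 → π h = 1 → ε (g * h) = ε g * ε h)
    (hinj : ∀ g, π g = 1 → ε g = 1 → g = 1) : Frame G (L2 + L1) :=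
  have e1 : ε 1 = 1 := by
    have := hε 1 1 (map_one _) (map_one _)
    rw [one_mul] at this
    exact (mul_eq_left.mp this.symm)
  have einv : ∀ g, π g = 1 → ε g⁻¹ = (ε g)⁻¹ := by
    intro g hg
    have h1 : π g⁻¹ = 1 := by rw [map_inv, hg, inv_one]
    have := hε g⁻¹ g h1 hg
    rw [inv_mul_cancel, e1] at this
    exact eq_inv_of_mul_eq_one_left this.symm
  have ene : ∀ g, π g = 1 → g ≠ 1 → ε g ≠ 1 := fun g h1 h2 h3 => h2 (hinj g h1 h3)
  { pos := fun g => if π g = 1 then FD.pos (ε g) else FQ.pos (π g)
    near := fun g h => (π g = 1 ∧ π h = 1 ∧ FD.near (ε g) (ε h)) ∨ (π g ≠ 1 ∧ π g = π h ∧ g ≠ h) ∨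
      FQ.near (π g) (π h)
    size := fun g => if π g = 1 then FD.size (ε g) else FD.bd + FQ.size (π g)
    lab := fun s g => if π g = 1 then FD.lab s (ε g) else L2 + FQ.lab s (π g)
    safe := fun s g => if π g = 1 then FD.safe s (ε g) else FQ.safe s (π g)
    sp := fun c x y z => (π x = π z ∧ π y = π z ∧ FD.sp c (ε (z⁻¹ * x)) (ε (z⁻¹ * y)) 1) ∨
      (π x ≠ π y ∧ π y ≠ π z ∧ π x ≠ π z ∧ FQ.sp c (π x) (π y) (π z))
    bd := FD.bd + FQ.bd
    size_lt := by
      intro g
      by_cases h : π g = 1
      · simp only [h, if_true]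
        have := FD.size_lt (ε g)
        omega
      · simp only [h, if_false]
        have := FQ.size_lt (π g)
        omega
    size_inv := by
      intro g
      by_cases h : π g = 1
      · have h' : π g⁻¹ = 1 := by rw [map_inv, h, inv_one]
        simp only [h, h', if_true, einv g h, FD.size_inv]
      · have h' : π g⁻¹ ≠ 1 := by rw [map_inv]; exact inv_ne_one.mpr h
        simp only [h, h', if_false]
        rw [map_inv, FQ.size_inv]
    lab_inv := by
      intro s g
      by_cases h : π g = 1
      · have h' : π g⁻¹ = 1 := by rw [map_inv, h, inv_one]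
        simp only [h, h', if_true, einv g h, FD.lab_inv]
      · have h' : π g⁻¹ ≠ 1 := by rw [map_inv]; exact inv_ne_one.mpr h
        simp only [h, h', if_false]
        rw [map_inv, FQ.lab_inv]
    safe_inv := by
      intro s g
      by_cases h : π g = 1
      · have h' : π g⁻¹ = 1 := by rw [map_inv, h, inv_one]
        simp only [h, h', if_true, einv g h, FD.safe_inv]
      · have h' : π g⁻¹ ≠ 1 := by rw [map_inv]; exact inv_ne_one.mpr h
        simp only [h, h', if_false]
        rw [map_inv, FQ.safe_inv]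
    lab_lt := by
      intro s g hg
      by_cases h : π g = 1
      · simp only [h, if_true]
        have := FD.lab_lt s (ε g) (ene g h hg)
        omega
      · simp only [h, if_false]
        have := FQ.lab_lt s (π g) h
        omega
    near_symm := by
      rintro g h (⟨h1, h2, h3⟩ | ⟨h1, h2, h3⟩ | h1)
      · exact Or.inl ⟨h2, h1, FD.near_symm _ _ h3⟩
      · exact Or.inr (Or.inl ⟨h2 ▸ h1, h2.symm, h3.symm⟩)
      · exact Or.inr (Or.inr (FQ.near_symm _ _ h1))
    near_ne := by
      rintro g h (⟨h1, h2, h3⟩ | ⟨h1, h2, h3⟩ | h1)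
      · obtain ⟨h4, h5, h6⟩ := FD.near_ne _ _ h3
        exact ⟨fun e => h4 (by rw [e, e1]), fun e => h5 (by rw [e, e1]), fun e => h6 (by rw [e])⟩
      · exact ⟨fun e => h1 (by rw [e, map_one]), fun e => h1 (by rw [h2, e, map_one]), h3⟩
      · obtain ⟨h4, h5, h6⟩ := FQ.near_ne _ _ h1
        exact ⟨fun e => h4 (by rw [e, map_one]), fun e => h5 (by rw [e, map_one]), fun e => h6 (by rw [e])⟩
    near_pos := by
      rintro g h (⟨h1, h2, h3⟩ | ⟨h1, h2, h3⟩ | h1)
      · simp only [h1, h2, if_true]
        exact FD.near_pos _ _ h3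
      · simp only [← h2, h1, if_false]
      · obtain ⟨h4, h5, h6⟩ := FQ.near_ne _ _ h1
        simp only [h4, h5, if_false]
        exact FQ.near_pos _ _ h1
    near_anti := by
      rintro g h (⟨h1, h2, h3⟩ | ⟨h1, h2, h3⟩ | h1)
      · have h' : π g⁻¹ = 1 := by rw [map_inv, h1, inv_one]
        simp only [h1, h', if_true, einv g h1]
        exact FD.near_anti _ _ h3
      · have h' : π g⁻¹ ≠ 1 := by rw [map_inv]; exact inv_ne_one.mpr h1
        simp only [h1, h', if_false]
        rw [map_inv]
        exact hQ.1 _ h1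
      · obtain ⟨h4, h5, h6⟩ := FQ.near_ne _ _ h1
        have h' : π g⁻¹ ≠ 1 := by rw [map_inv]; exact inv_ne_one.mpr h4
        simp only [h4, h', if_false]
        rw [map_inv]
        exact hQ.1 _ h4
    near_size := by
      rintro g h (⟨h1, h2, h3⟩ | ⟨h1, h2, h3⟩ | h1)
      · have h' : π (h⁻¹ * g) = 1 := by rw [map_mul, map_inv, h1, h2]; simp
        have h'' : π h⁻¹ = 1 := by rw [map_inv, h2, inv_one]
        simp only [h1, h', if_true, hε _ _ h'' h1, einv h h2]
        exact FD.near_size _ _ h3
      · have h' : π (h⁻¹ * g) = 1 := by rw [map_mul, map_inv, h2]; simp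
        simp only [h1, h', if_true, if_false]
        have := FD.size_lt (ε (h⁻¹ * g))
        omega
      · obtain ⟨h4, h5, h6⟩ := FQ.near_ne _ _ h1
        have h' : π (h⁻¹ * g) ≠ 1 := by
          rw [map_mul, map_inv]
          intro e
          exact h6 (by rw [inv_mul_eq_one] at e; exact e.symm)
        simp only [h4, h', if_false]
        rw [map_mul, map_inv]
        have := FQ.near_size _ _ h1
        omega
    near_safe := by
      rintro g h (⟨h1, h2, h3⟩ | ⟨h1, h2, h3⟩ | h1)
      · simp only [h1, h2, if_true]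
        exact FD.near_safe _ _ h3
      · simp only [← h2, h1, if_false, and_self]
        exact hQ.2 _ h1
      · obtain ⟨h4, h5, h6⟩ := FQ.near_ne _ _ h1
        simp only [h4, h5, if_false]
        exact FQ.near_safe _ _ h1
    near_lab := by
      rintro g h s (⟨h1, h2, h3⟩ | ⟨h1, h2, h3⟩ | h1) hs1 hs2
      · have h' : π (h⁻¹ * g) = 1 := by rw [map_mul, map_inv, h1, h2]; simp
        have h'' : π h⁻¹ = 1 := by rw [map_inv, h2, inv_one]
        simp only [h1, h2, if_true] at hs1 hs2
        simp only [h1, h2, h', if_true, hε _ _ h'' h1, einv h h2]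
        exact FD.near_lab _ _ _ h3 hs1 hs2
      · have h' : π (h⁻¹ * g) = 1 := by rw [map_mul, map_inv, h2]; simp
        have h4 : h⁻¹ * g ≠ 1 := by
          intro e
          exact h3 (by rw [inv_mul_eq_one] at e; exact e.symm)
        simp only [h', if_true, h1, if_false, ← h2, true_and]
        have := FD.lab_lt s _ (ene _ h' h4)
        omega
      · obtain ⟨h4, h5, h6⟩ := FQ.near_ne _ _ h1
        have h' : π (h⁻¹ * g) ≠ 1 := by
          rw [map_mul, map_inv]
          intro e
          exact h6 (by rw [inv_mul_eq_one] at e; exact e.symm)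
        simp only [h4, h5, if_false] at hs1 hs2
        simp only [h4, h5, h', if_false]
        rw [map_mul, map_inv]
        have := FQ.near_lab _ _ _ h1 hs1 hs2
        omega
    sp_swap := by
      rintro c x y z (⟨h1, h2, h3⟩ | ⟨h1, h2, h3, h4⟩)
      · exact Or.inl ⟨h2, h1, FD.sp_swap _ _ _ _ h3⟩
      · exact Or.inr ⟨h1.symm, h3, h2, FQ.sp_swap _ _ _ _ h4⟩
    sp_rot := by
      rintro c x y z (⟨h1, h2, h3⟩ | ⟨h1, h2, h3, h4⟩)
      · refine Or.inl ⟨by rw [h2, h1], h1.symm, ?_⟩
        have h5 := FD.sp_mul c (ε (x⁻¹ * z)) _ _ _ (FD.sp_rot _ _ _ _ h3)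
        have k1 : π (x⁻¹ * z) = 1 := by rw [map_mul, map_inv, h1]; simp
        have k2 : π (z⁻¹ * y) = 1 := by rw [map_mul, map_inv, h2]; simp
        have k3 : π (z⁻¹ * x) = 1 := by rw [map_mul, map_inv, h1]; simp
        rw [← hε _ _ k1 k2, ← hε _ _ k1 k3, mul_one] at h5
        simpa [mul_assoc, e1] using h5
      · exact Or.inr ⟨h2, h3.symm, h1.symm, FQ.sp_rot _ _ _ _ h4⟩
    sp_mul := by
      rintro c t x y z (⟨h1, h2, h3⟩ | ⟨h1, h2, h3, h4⟩)
      · refine Or.inl ⟨by rw [map_mul, map_mul, h1], by rw [map_mul, map_mul, h2], ?_⟩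
        have k1 : (t * z)⁻¹ * (t * x) = z⁻¹ * x := by group
        have k2 : (t * z)⁻¹ * (t * y) = z⁻¹ * y := by group
        rw [k1, k2]
        exact h3
      · refine Or.inr ⟨?_, ?_, ?_, ?_⟩
        · rw [map_mul, map_mul]; exact fun e => h1 (mul_left_cancel e)
        · rw [map_mul, map_mul]; exact fun e => h2 (mul_left_cancel e)
        · rw [map_mul, map_mul]; exact fun e => h3 (mul_left_cancel e)
        · rw [map_mul, map_mul, map_mul]
          exact FQ.sp_mul _ _ _ _ _ h4
    cover := by
      intro x y z hxy hyz hxz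
      have key : ∀ a b c : G, π a = π b → π b ≠ π c → a ≠ b →
          (π (c⁻¹ * a) ≠ 1 ∧ π (c⁻¹ * a) = π (c⁻¹ * b) ∧ c⁻¹ * a ≠ c⁻¹ * b) := by
        intro a b c h1 h2 h3
        refine ⟨?_, ?_, fun e => h3 (mul_left_cancel e)⟩
        · rw [map_mul, map_inv, h1]
          intro e
          rw [inv_mul_eq_one] at e
          exact h2 e.symm
        · rw [map_mul, map_mul, h1]
      by_cases h1 : π x = π y
      · by_cases h2 : π y = π z
        · have k1 : π (z⁻¹ * x) = 1 := by rw [map_mul, map_inv, h1, h2]; simp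
          have k2 : π (z⁻¹ * y) = 1 := by rw [map_mul, map_inv, h2]; simp
          have k3 : π (y⁻¹ * x) = 1 := by rw [map_mul, map_inv, h1]; simp
          have k4 : π (y⁻¹ * z) = 1 := by rw [map_mul, map_inv, h2]; simp
          have k5 : π (x⁻¹ * y) = 1 := by rw [map_mul, map_inv, h1]; simp
          have k6 : π (x⁻¹ * z) = 1 := by rw [map_mul, map_inv, h1, h2]; simp
          have kk : ∀ g, π g = 1 → π g⁻¹ = 1 := by
            intro g hg
            rw [map_inv, hg, inv_one]
          have n1 : ε (z⁻¹ * x) ≠ 1 := ene _ k1 (fun e => hxz (by rw [inv_mul_eq_one] at e; exact e.symm))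
          have n2 : ε (z⁻¹ * y) ≠ 1 := ene _ k2 (fun e => hyz (by rw [inv_mul_eq_one] at e; exact e.symm))
          have c1 : (ε (z⁻¹ * y))⁻¹ * ε (z⁻¹ * x) = ε (y⁻¹ * x) := by
            rw [← einv _ k2, ← hε _ _ (kk _ k2) k1]
            congr 1
            group
          have c2 : (ε (z⁻¹ * y))⁻¹ * 1 = ε (y⁻¹ * z) := by
            rw [mul_one, ← einv _ k2]
            congr 1
            group
          have c3 : (ε (z⁻¹ * x))⁻¹ * ε (z⁻¹ * y) = ε (x⁻¹ * y) := by
            rw [← einv _ k1, ← hε _ _ (kk _ k1) k2]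
            congr 1
            group
          have c4 : (ε (z⁻¹ * x))⁻¹ * 1 = ε (x⁻¹ * z) := by
            rw [mul_one, ← einv _ k1]
            congr 1
            group
          have n3 : ε (z⁻¹ * x) ≠ ε (z⁻¹ * y) := by
            intro e
            have h5 : ε (y⁻¹ * x) = 1 := by rw [← c1, e]; simp
            exact hxy (by have := hinj _ k3 h5; rw [inv_mul_eq_one] at this; exact this.symm)
          rcases FD.cover (ε (z⁻¹ * x)) (ε (z⁻¹ * y)) 1 n3 n2 n1 with h | h | h | ⟨c, h⟩
          · rw [inv_one, one_mul, one_mul] at h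
            exact Or.inl (Or.inl ⟨k1, k2, h⟩)
          · rw [c1, c2] at h
            exact Or.inr (Or.inl (Or.inl ⟨k3, k4, h⟩))
          · rw [c3, c4] at h
            exact Or.inr (Or.inr (Or.inl (Or.inl ⟨k5, k6, h⟩)))
          · exact Or.inr (Or.inr (Or.inr ⟨c, Or.inl ⟨by rw [h1, h2], h2, h⟩⟩))
        · exact Or.inl (Or.inr (Or.inl (key x y z h1 h2 hxy)))
      · by_cases h2 : π x = π z
        · exact Or.inr (Or.inl (Or.inr (Or.inl (key x z y h2 (fun e => h1 (by rw [h2, e])) hxz))))
        · by_cases h3 : π y = π z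
          · exact Or.inr (Or.inr (Or.inl (Or.inr (Or.inl (key y z x h3 (fun e => h2 e.symm) hyz)))))
          · rcases FQ.cover (π x) (π y) (π z) h1 h3 h2 with h | h | h | ⟨c, h⟩
            · refine Or.inl (Or.inr (Or.inr ?_))
              rw [map_mul, map_mul, map_inv]
              exact h
            · refine Or.inr (Or.inl (Or.inr (Or.inr ?_)))
              rw [map_mul, map_mul, map_inv]
              exact h
            · refine Or.inr (Or.inr (Or.inl (Or.inr (Or.inr ?_))))
              rw [map_mul, map_mul, map_inv]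
              exact h
            · exact Or.inr (Or.inr (Or.inr ⟨c, Or.inr ⟨h1, h3, h2, h⟩⟩))
    sp_free := by
      intro c v hv h
      by_cases hall : ∀ i, π (v i) = π (v 0)
      · refine FD.sp_free c (fun i => ε ((v 0)⁻¹ * v i)) ?_ ?_
        · intro i j hij
          have k1 : ∀ i, π ((v 0)⁻¹ * v i) = 1 := by
            intro i
            rw [map_mul, map_inv, hall i]
            simp
          have k2 : π ((v 0)⁻¹ * v j)⁻¹ = 1 := by rw [map_inv, k1, inv_one]
          have h5 : ε (((v 0)⁻¹ * v j)⁻¹ * ((v 0)⁻¹ * v i)) = 1 := by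
            rw [hε _ _ k2 (k1 i), einv _ (k1 j)]
            rw [show ε ((v 0)⁻¹ * v i) = ε ((v 0)⁻¹ * v j) from hij]
            simp
          have h6 := hinj _ (by rw [map_mul, k2, k1, one_mul]) h5
          rw [inv_mul_eq_one] at h6
          exact hv (mul_left_cancel h6).symm
        · intro i j k hij hjk hik
          rcases h i j k hij hjk hik with ⟨h1, h2, h3⟩ | ⟨h1, -, -, -⟩
          · have k1 : ∀ i, π ((v 0)⁻¹ * v i) = 1 := by
              intro i
              rw [map_mul, map_inv, hall i]
              simp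
            have k2 : ∀ i, π ((v k)⁻¹ * v i) = 1 := by
              intro i
              rw [map_mul, map_inv, hall i, hall k]
              simp
            have h4 := FD.sp_mul c (ε ((v 0)⁻¹ * v k)) _ _ _ h3
            rw [← hε _ _ (k1 k) (k2 i), ← hε _ _ (k1 k) (k2 j), mul_one] at h4
            have g1 : (v 0)⁻¹ * v k * ((v k)⁻¹ * v i) = (v 0)⁻¹ * v i := by group
            have g2 : (v 0)⁻¹ * v k * ((v k)⁻¹ * v j) = (v 0)⁻¹ * v j := by group
            rw [g1, g2] at h4
            exact h4
          · exact (h1 (by rw [hall i, hall j])).elim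
      · refine FQ.sp_free c (fun i => π (v i)) ?_ ?_
        · have hdist : ∀ i j k : Fin 4, i ≠ j → j ≠ k → i ≠ k → π (v i) = π (v j) → π (v k) = π (v j) := by
            intro i j k hij hjk hik he
            rcases h i j k hij hjk hik with ⟨h1, h2, -⟩ | ⟨h1, -, -, -⟩
            · exact h2.symm
            · exact (h1 he).elim
          intro i j hij
          by_contra hne
          apply hall
          have hall' : ∀ k, π (v k) = π (v j) := by
            intro k
            by_cases e1 : k = i
            · rw [e1]; exact hij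
            · by_cases e2 : k = j
              · rw [e2]
              · exact hdist i j k hne (fun e => e2 e.symm) (fun e => e1 e.symm) hij
          intro k
          rw [hall' k, hall' 0]
        · intro i j k hij hjk hik
          rcases h i j k hij hjk hik with ⟨h1, h2, -⟩ | ⟨-, -, -, h4⟩
          · exfalso
            apply hall
            have hother : ∀ l, π (v l) = π (v k) := by
              intro l
              by_cases e1 : l = i
              · rw [e1]; exact h1
              · by_cases e2 : l = j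
                · rw [e2]; exact h2
                · by_cases e3 : l = k
                  · rw [e3]
                  · rcases h i j l hij (fun e => e2 e.symm) (fun e => e1 e.symm) with ⟨h5, -, -⟩ | ⟨h5, -, -, -⟩
                    · rw [← h5, h1]
                    · exact (h5 (by rw [h1, h2])).elim
            intro l
            rw [hother l, hother 0]
          · exact h4 }

theorem Frame.ext_full {G Q D : Type} [Group G] [Group Q] [Group D] {L1 L2 : ℕ}
    (FQ : Frame Q L1) (FD : Frame D L2) (hQ : FQ.Full) (π : G →* Q) (ε : G → D)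
    (hε : ∀ g h, π g = 1 → π h = 1 → ε (g * h) = ε g * ε h)
    (hinj : ∀ g, π g = 1 → ε g = 1 → g = 1) (hD : FD.Full) : (Frame.ext FQ FD hQ π ε hε hinj).Full := by
  have e1 : ε 1 = 1 := by
    have := hε 1 1 (map_one _) (map_one _)
    rw [one_mul] at this
    exact (mul_eq_left.mp this.symm)
  have einv : ∀ g, π g = 1 → ε g⁻¹ = (ε g)⁻¹ := by
    intro g hg
    have h1 : π g⁻¹ = 1 := by rw [map_inv, hg, inv_one]
    have := hε g⁻¹ g h1 hg
    rw [inv_mul_cancel, e1] at this
    exact eq_inv_of_mul_eq_one_left this.symm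
  have p1 : ∀ g, π g = 1 → ((Frame.ext FQ FD hQ π ε hε hinj).pos g ↔ FD.pos (ε g)) := by
    intro g hg
    simp only [Frame.ext, hg, if_true]
  have p2 : ∀ g, π g ≠ 1 → ((Frame.ext FQ FD hQ π ε hε hinj).pos g ↔ FQ.pos (π g)) := by
    intro g hg
    simp only [Frame.ext, hg, if_false]
  have s1 : ∀ s g, π g = 1 → ((Frame.ext FQ FD hQ π ε hε hinj).safe s g ↔ FD.safe s (ε g)) := by
    intro s g hg
    simp only [Frame.ext, hg, if_true]
  have s2 : ∀ s g, π g ≠ 1 → ((Frame.ext FQ FD hQ π ε hε hinj).safe s g ↔ FQ.safe s (π g)) := by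
    intro s g hg
    simp only [Frame.ext, hg, if_false]
  constructor
  · intro g hg
    by_cases h : π g = 1
    · have h' : π g⁻¹ = 1 := by rw [map_inv, h, inv_one]
      rw [p1 _ h', p1 _ h, einv g h]
      exact hD.1 _ (fun e => hg (hinj g h e))
    · have h' : π g⁻¹ ≠ 1 := by rw [map_inv]; exact inv_ne_one.mpr h
      rw [p2 _ h', p2 _ h, map_inv]
      exact hQ.1 _ h
  · intro g hg
    by_cases h : π g = 1
    · simp only [s1 _ _ h]
      exact hD.2 _ (fun e => hg (hinj g h e))
    · simp only [s2 _ _ h]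
      exact hQ.2 _ h

end Pool.Agent.TInv
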