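import Pool.Agent.TInv.Cover

/-!
MP_fafa1c_co: the least number of translation-invariant `K_4^(3)`-free 3-graphs covering the triples of a group.
-/

set_option autoImplicit false

namespace Pool.Agent.TInv

open Pool.Agent.Hhelper55.TripleCover

theorem coversInv_of_fintype {G : Type} [Group G] {ι : Type} [Fintype ι] {N : ℕ} (hN : Fintype.card ι = N)
    (H : ι → Set (Finset G)) (h1 : ∀ i, ∀ e ∈ H i, e.card = 3)
    (h2 : ∀ i, ∀ e ∈ H i, ∀ g : G, e.map (Equiv.mulLeft g).toEmbedding ∈ H i)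
    (h3 : ∀ i, ¬ ∃ T : Finset G, T.card = 4 ∧ ∀ e : Finset G, e ⊆ T → e.card = 3 → e ∈ H i)
    (h4 : ∀ e : Finset G, e.card = 3 → ∃ i, e ∈ H i) : CoversInv G N := by
  have e := Fintype.equivFinOfCardEq hN
  refine ⟨fun i => H (e.symm i), fun i => h1 _, fun i => h2 _, fun i => h3 _, ?_⟩
  intro t ht
  obtain ⟨i, hi⟩ := h4 t ht
  exact ⟨e i, by simpa using hi⟩

section

variable {G : Type} [Group G] {L m : ℕ} (F : Frame G L) (Gr : Fin m → SimpleGraph (Fin L))

/-- Close pairs with sign, shift and graph colour. -/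
def R1 (σ s : Bool) (c : Fin m) (u v w : G) : Prop :=
  F.near (w⁻¹ * u) (w⁻¹ * v) ∧ (F.pos (w⁻¹ * u) ↔ σ = true) ∧ F.safe s (w⁻¹ * u) ∧ F.safe s (w⁻¹ * v) ∧
    F.safe s (v⁻¹ * u) ∧ ∃ i j : Fin L, (i : ℕ) = F.lab s (w⁻¹ * u) ∧ (j : ℕ) = F.lab s (v⁻¹ * u) ∧ (Gr c).Adj i j

/-- Close pairs with sign and shift, unsafe short side. -/
def R2 (σ s : Bool) (u v w : G) : Prop :=
  F.near (w⁻¹ * u) (w⁻¹ * v) ∧ (F.pos (w⁻¹ * u) ↔ σ = true) ∧ F.safe s (w⁻¹ * u) ∧ F.safe s (w⁻¹ * v) ∧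
    ¬ F.safe s (v⁻¹ * u)

theorem R1_mul (σ s : Bool) (c : Fin m) (g u v w : G) (h : R1 F Gr σ s c u v w) :
    R1 F Gr σ s c (g * u) (g * v) (g * w) := by
  have k : ∀ x y : G, (g * x)⁻¹ * (g * y) = x⁻¹ * y := fun x y => by group
  unfold R1 at *
  simp only [k]
  exact h

theorem R2_mul (σ s : Bool) (g u v w : G) (h : R2 F σ s u v w) : R2 F σ s (g * u) (g * v) (g * w) := by
  have k : ∀ x y : G, (g * x)⁻¹ * (g * y) = x⁻¹ * y := fun x y => by group
  unfold R2 at *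
  simp only [k]
  exact h

theorem swap_inv (u v : G) : u⁻¹ * v = (v⁻¹ * u)⁻¹ := by group

theorem R1_symm (σ s : Bool) (c : Fin m) (u v w : G) (h : R1 F Gr σ s c u v w) : R1 F Gr σ s c v u w := by
  obtain ⟨h1, h2, h3, h4, h5, i, j, hi, hj, hij⟩ := h
  refine ⟨F.near_symm _ _ h1, by rw [← F.near_pos _ _ h1]; exact h2, h4, h3, ?_, i, j, ?_, ?_, hij⟩
  · rw [swap_inv, F.safe_inv]
    exact h5
  · rw [hi, (F.near_lab _ _ s h1 h3 h4).1]
  · rw [hj, swap_inv, F.lab_inv]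

theorem R2_symm (σ s : Bool) (u v w : G) (h : R2 F σ s u v w) : R2 F σ s v u w := by
  obtain ⟨h1, h2, h3, h4, h5⟩ := h
  refine ⟨F.near_symm _ _ h1, by rw [← F.near_pos _ _ h1]; exact h2, h4, h3, ?_⟩
  rw [swap_inv, F.safe_inv]
  exact h5

theorem anti_aux {u v w : G} {σ : Bool} (h1 : F.near (w⁻¹ * u) (w⁻¹ * v)) (h2 : F.pos (w⁻¹ * u) ↔ σ = true)
    (h3 : F.pos (u⁻¹ * w) ↔ σ = true) : False := by
  have h4 := F.near_anti _ _ h1
  rw [← swap_inv u w] at h4
  tauto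

include F in
theorem coversInv_of_frame (hfree : ∀ i, (Gr i).CliqueFree 3) (hcov : ∀ a b : Fin L, a ≠ b → ∃ i, (Gr i).Adj a b) :
    CoversInv G (4 * m + 9) := by
  classical
  refine coversInv_of_fintype (ι := (Bool × Bool × Fin m) ⊕ (Bool × Bool) ⊕ Fin 5) ?_
    (fun x => match x with
      | Sum.inl (σ, s, c) => Mem (R1 F Gr σ s c)
      | Sum.inr (Sum.inl (σ, s)) => Mem (R2 F σ s)
      | Sum.inr (Sum.inr c) => Mem (F.sp c)) ?_ ?_ ?_ ?_
  · simp only [Fintype.card_sum, Fintype.card_prod, Fintype.card_bool, Fintype.card_fin]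
    ring
  · rintro (⟨σ, s, c⟩ | ⟨σ, s⟩ | c) e he
    · exact he.1
    · exact he.1
    · exact he.1
  · rintro (⟨σ, s, c⟩ | ⟨σ, s⟩ | c) e he g
    · exact mem_map (R1_mul F Gr σ s c) he g
    · exact mem_map (R2_mul F σ s) he g
    · exact mem_map (fun g u v w h => F.sp_mul c g u v w h) he g
  · rintro (⟨σ, s, c⟩ | ⟨σ, s⟩ | c)
    · apply free_of_close F (R1_symm F Gr σ s c) (fun u v w h => h.1)
      · intro u v w w' h h'
        exact anti_aux F h.1 h.2.1 h'.2.1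
      · intro u v w w' h h' h''
        obtain ⟨h1, h2, h3, h4, h5, i, j, hi, hj, hij⟩ := h
        obtain ⟨k1, k2, k3, k4, k5, i', j', hi', hj', hij'⟩ := h'
        obtain ⟨l1, l2, l3, l4, l5, i'', j'', hi'', hj'', hij''⟩ := h''
        have e1 : j = j' := Fin.ext (by rw [hj, hj'])
        have e2 : i' = i'' := Fin.ext (by rw [hi', hi''])
        have e3 : i = j'' := Fin.ext (by rw [hi, hj''])
        subst e1 e2 e3
        exact no_triangle (hfree c) hij'' hij hij'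
    · apply free_of_close F (R2_symm F σ s) (fun u v w h => h.1)
      · intro u v w w' h h'
        exact anti_aux F h.1 h.2.1 h'.2.1
      · intro u v w w' h h' h''
        exact h''.2.2.2.2 h.2.2.1
    · exact free_of_sp F c
  · intro e he
    obtain ⟨x, y, z, hxy, hxz, hyz, rfl⟩ := Finset.card_eq_three.mp he
    have key : ∀ u v w : G, u ∈ ({x, y, z} : Finset G) → v ∈ ({x, y, z} : Finset G) → w ∈ ({x, y, z} : Finset G) →
        F.near (w⁻¹ * u) (w⁻¹ * v) → u ≠ v → v ≠ w → u ≠ w →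
        ∃ i : (Bool × Bool × Fin m) ⊕ (Bool × Bool) ⊕ Fin 5, ({x, y, z} : Finset G) ∈ (fun x => match x with
      | Sum.inl (σ, s, c) => Mem (R1 F Gr σ s c)
      | Sum.inr (Sum.inl (σ, s)) => Mem (R2 F σ s)
      | Sum.inr (Sum.inr c) => Mem (F.sp c)) i := by
      intro u v w hu hv hw hn huv hvw huw
      obtain ⟨s, hs1, hs2⟩ := F.near_safe _ _ hn
      obtain ⟨g1, g2, g3⟩ := F.near_ne _ _ hn
      have hσ : F.pos (w⁻¹ * u) ↔ (decide (F.pos (w⁻¹ * u))) = true := by simp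
      by_cases hs3 : F.safe s (v⁻¹ * u)
      · have hl := F.near_lab _ _ s hn hs1 hs2
        have hvu : v⁻¹ * u ≠ 1 := by
          intro e
          rw [inv_mul_eq_one] at e
          exact huv e.symm
        have kk : (w⁻¹ * v)⁻¹ * (w⁻¹ * u) = v⁻¹ * u := by group
        rw [kk] at hl
        obtain ⟨c, hc⟩ := hcov ⟨F.lab s (w⁻¹ * u), F.lab_lt _ _ g1⟩ ⟨F.lab s (v⁻¹ * u), F.lab_lt _ _ hvu⟩
          (fun e => hl.2 (congrArg Fin.val e).symm)
        exact ⟨Sum.inl (decide (F.pos (w⁻¹ * u)), s, c), he, u, hu, v, hv, w, hw, huv, hvw, huw, hn, hσ, hs1, hs2,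
          hs3, _, _, rfl, rfl, hc⟩
      · exact ⟨Sum.inr (Sum.inl (decide (F.pos (w⁻¹ * u)), s)), he, u, hu, v, hv, w, hw, huv, hvw, huw, hn, hσ, hs1,
          hs2, hs3⟩
    have mx : x ∈ ({x, y, z} : Finset G) := by simp
    have my : y ∈ ({x, y, z} : Finset G) := by simp
    have mz : z ∈ ({x, y, z} : Finset G) := by simp
    rcases F.cover x y z hxy hyz hxz with h | h | h | ⟨c, h⟩
    · exact key x y z mx my mz h hxy hyz hxz
    · exact key x z y mx mz my h hxz hyz.symm hxy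
    · exact key y z x my mz mx h hyz hxz.symm hxy.symm
    · exact ⟨Sum.inr (Sum.inr c), he, x, mx, y, my, z, mz, hxy, hyz, hxz, h⟩

end

theorem covers3_of_inv {G : Type} [Group G] [Finite G] {m : ℕ} (h : CoversInv G m) : Covers3 (Nat.card G) m := by
  obtain ⟨H, h1, h2, h3, h4⟩ := h
  have e : Fin (Nat.card G) ≃ G := (Finite.equivFin G).symm
  refine ⟨fun i => {T | T.map e.toEmbedding ∈ H i}, ?_, ?_, ?_⟩
  · intro i T hT
    have := h1 i _ hT
    rwa [Finset.card_map] at this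
  · rintro i ⟨T, hT, hall⟩
    refine h3 i ⟨T.map e.toEmbedding, by rw [Finset.card_map]; exact hT, ?_⟩
    intro t ht htc
    have k1 : (t.map e.symm.toEmbedding).map e.toEmbedding = t := by
      rw [Finset.map_map]
      convert Finset.map_refl
      ext x
      simp
    have k2 := hall (t.map e.symm.toEmbedding) ?_ (by rw [Finset.card_map]; exact htc)
    · have k3 : (t.map e.symm.toEmbedding).map e.toEmbedding ∈ H i := k2
      rwa [k1] at k3
    · intro x hx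
      rw [Finset.mem_map] at hx
      obtain ⟨y, hy, rfl⟩ := hx
      have := ht hy
      rw [Finset.mem_map] at this
      obtain ⟨z, hz, rfl⟩ := this
      simpa using hz
  · intro t ht
    obtain ⟨i, hi⟩ := h4 (t.map e.toEmbedding) (by rw [Finset.card_map]; exact ht)
    exact ⟨i, hi⟩

theorem no_cover {G : Type} [Group G] [Finite G] (h4 : 4 ∣ Nat.card G) (m : ℕ) : ¬ CoversInv G m := by
  classical
  rintro ⟨H, h1, h2, h3, h5⟩
  have : Fact (Nat.Prime 2) := ⟨Nat.prime_two⟩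
  obtain ⟨K, hK⟩ := Sylow.exists_subgroup_card_pow_prime (G := G) 2 (n := 2) (by simpa using h4)
  have hK4 : Nat.card K = 4 := by rw [hK]; norm_num
  have hfin : (K : Set G).Finite := Set.toFinite _
  set T : Finset G := hfin.toFinset with hT
  have hTc : T.card = 4 := by
    rw [hT, ← Set.ncard_eq_toFinset_card _ hfin]
    exact hK4
  have hmem : ∀ x, x ∈ T ↔ x ∈ K := by
    intro x
    rw [hT, Set.Finite.mem_toFinset]
    exact Iff.rfl
  obtain ⟨i, hi⟩ := h5 (T.erase 1) (by rw [Finset.card_erase_of_mem ((hmem 1).mpr K.one_mem), hTc])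
  refine h3 i ⟨T, hTc, ?_⟩
  intro e heT hec
  obtain ⟨k, hkT, hke⟩ : ∃ k ∈ T, k ∉ e := by
    by_contra hc
    push Not at hc
    have := Finset.card_le_card (show T ⊆ e from hc)
    omega
  have he : e = T.erase k := by
    apply Finset.eq_of_subset_of_card_le
    · intro x hx
      exact Finset.mem_erase.mpr ⟨fun h => hke (h ▸ hx), heT hx⟩
    · rw [Finset.card_erase_of_mem hkT, hTc, hec]
  have h6 := h2 i _ hi k
  have h7 : (T.erase 1).map (Equiv.mulLeft k).toEmbedding = T.erase k := by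
    ext x
    simp only [Finset.mem_map, Finset.mem_erase, Equiv.coe_toEmbedding, Equiv.coe_mulLeft]
    constructor
    · rintro ⟨y, ⟨hy1, hy2⟩, rfl⟩
      exact ⟨fun e => hy1 (by simpa using e), (hmem _).mpr (K.mul_mem ((hmem _).mp hkT) ((hmem _).mp hy2))⟩
    · rintro ⟨hx1, hx2⟩
      refine ⟨k⁻¹ * x, ⟨fun e => hx1 ?_, (hmem _).mpr (K.mul_mem (K.inv_mem ((hmem _).mp hkT)) ((hmem _).mp hx2))⟩, by
        group⟩
      rw [inv_mul_eq_one] at e
      exact e.symm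
  rw [h7, ← he] at h6
  exact h6

theorem main (G : Type) [Group G] [Finite G] (h3 : 3 ≤ Nat.card G) :
    (4 ∣ Nat.card G → ∀ m, ¬ CoversInv G m) ∧
    (Group.IsSolvable G → (∃ Z : Subgroup G, Z.Normal ∧ Nat.card Z ≤ 2 ∧ Odd Z.index) →
      f3 (Nat.card G) ≤ f3Inv G ∧ f3Inv G ≤ 21 * f3 (Nat.card G) ∧ CoversInv G (f3Inv G)) := by
  refine ⟨fun h m => no_cover h m, ?_⟩
  rintro hsol ⟨Z, hZn, hZ, hodd⟩
  obtain ⟨L, hL, ⟨F⟩⟩ := exists_frame G hsol Z hZ hodd
  have hlog : L ≤ Nat.clog 2 (Nat.card G) := by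
    have h1 : Nat.card G ≤ 2 ^ Nat.clog 2 (Nat.card G) := Nat.le_pow_clog (by norm_num) _
    exact (Nat.pow_le_pow_iff_right (by norm_num)).mp (hL.trans h1)
  obtain ⟨Gr, hfree, hcov⟩ := f2_spec L
  have hc := coversInv_of_frame F Gr hfree hcov
  have hne : {m | CoversInv G m}.Nonempty := ⟨_, hc⟩
  have hspec : CoversInv G (f3Inv G) := Nat.sInf_mem hne
  have hle : f3Inv G ≤ 4 * f2 L + 9 := Nat.sInf_le hc
  refine ⟨f3_le (covers3_of_inv hspec), ?_, hspec⟩
  have h5 := f2_mono hlog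
  have h6 := f3_lower _ h3
  have h7 := f3_pos h3
  omega

end Pool.Agent.TInv
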