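import Mathlib

/-!
MP_fafa1c_co: translation-invariant covers of the triples of a finite group by `K_4^(3)`-free 3-graphs.

A frame on a group `G` is a translation-invariant coarse ultrametric structure: some triples `u, v, w` have a close
pair `u, v` far from `w` (`near (w⁻¹ u) (w⁻¹ v)`), the others are divided in five `K_4`-free special classes; the
elements `≠ 1` have labels `< L` (for two shifts `s`, such that every close triple has a shift for which the two
long sides are safe, i.e. have the same label) and the long sides of a close triple have a common sign.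
-/

set_option autoImplicit false

namespace Pool.Agent.TInv

/-- Frames, see the header. -/
structure Frame (G : Type) [Group G] (L : ℕ) where
  pos : G → Prop
  near : G → G → Prop
  size : G → ℕ
  lab : Bool → G → ℕ
  safe : Bool → G → Prop
  sp : Fin 5 → G → G → G → Prop
  bd : ℕ
  size_lt : ∀ g, size g < bd
  size_inv : ∀ g, size g⁻¹ = size g
  lab_inv : ∀ s g, lab s g⁻¹ = lab s g
  safe_inv : ∀ s g, safe s g⁻¹ ↔ safe s g
  lab_lt : ∀ s g, g ≠ 1 → lab s g < L
  near_symm : ∀ g h, near g h → near h g
  near_ne : ∀ g h, near g h → g ≠ 1 ∧ h ≠ 1 ∧ g ≠ h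
  near_pos : ∀ g h, near g h → (pos g ↔ pos h)
  near_anti : ∀ g h, near g h → (pos g⁻¹ ↔ ¬ pos g)
  near_size : ∀ g h, near g h → size (h⁻¹ * g) < size g
  near_safe : ∀ g h, near g h → ∃ s, safe s g ∧ safe s h
  near_lab : ∀ g h s, near g h → safe s g → safe s h → lab s g = lab s h ∧ lab s (h⁻¹ * g) ≠ lab s g
  sp_swap : ∀ c x y z, sp c x y z → sp c y x z
  sp_rot : ∀ c x y z, sp c x y z → sp c y z x
  sp_mul : ∀ c t x y z, sp c x y z → sp c (t * x) (t * y) (t * z)
  cover : ∀ x y z, x ≠ y → y ≠ z → x ≠ z →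
    near (z⁻¹ * x) (z⁻¹ * y) ∨ near (y⁻¹ * x) (y⁻¹ * z) ∨ near (x⁻¹ * y) (x⁻¹ * z) ∨ ∃ c, sp c x y z
  sp_free : ∀ c (v : Fin 4 → G), Function.Injective v →
    ¬ ∀ i j k : Fin 4, i ≠ j → j ≠ k → i ≠ k → sp c (v i) (v j) (v k)

/-- Every element `≠ 1` has a sign and a safe shift. -/
def Frame.Full {G : Type} [Group G] {L : ℕ} (F : Frame G L) : Prop :=
  (∀ g, g ≠ 1 → (F.pos g⁻¹ ↔ ¬ F.pos g)) ∧ ∀ g, g ≠ 1 → ∃ s, F.safe s g

/-- Pull back a frame along an injective homomorphism. -/
def Frame.comap {G G' : Type} [Group G] [Group G'] {L : ℕ} (F : Frame G' L) (f : G →* G')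
    (hf : Function.Injective f) : Frame G L where
  pos g := F.pos (f g)
  near g h := F.near (f g) (f h)
  size g := F.size (f g)
  lab s g := F.lab s (f g)
  safe s g := F.safe s (f g)
  sp c x y z := F.sp c (f x) (f y) (f z)
  bd := F.bd
  size_lt g := F.size_lt _
  size_inv g := by rw [map_inv, F.size_inv]
  lab_inv s g := by rw [map_inv, F.lab_inv]
  safe_inv s g := by rw [map_inv, F.safe_inv]
  lab_lt s g hg := F.lab_lt s _ (fun h => hg ((map_eq_one_iff f hf).mp h))
  near_symm g h hn := F.near_symm _ _ hn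
  near_ne g h hn := by
    obtain ⟨h1, h2, h3⟩ := F.near_ne _ _ hn
    exact ⟨fun e => h1 (by rw [e, map_one]), fun e => h2 (by rw [e, map_one]), fun e => h3 (by rw [e])⟩
  near_pos g h hn := F.near_pos _ _ hn
  near_anti g h hn := by
    rw [map_inv]
    exact F.near_anti _ _ hn
  near_size g h hn := by
    rw [map_mul, map_inv]
    exact F.near_size _ _ hn
  near_safe g h hn := F.near_safe _ _ hn
  near_lab g h s hn h1 h2 := by
    rw [map_mul, map_inv]
    exact F.near_lab _ _ _ hn h1 h2
  sp_swap c x y z h := F.sp_swap _ _ _ _ h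
  sp_rot c x y z h := F.sp_rot _ _ _ _ h
  sp_mul c t x y z h := by
    simp only [map_mul]
    exact F.sp_mul _ _ _ _ _ h
  cover x y z hxy hyz hxz := by
    simp only [map_mul, map_inv]
    exact F.cover _ _ _ (fun h => hxy (hf h)) (fun h => hyz (hf h)) (fun h => hxz (hf h))
  sp_free c v hv h := F.sp_free c (f ∘ v) (hf.comp hv) h

theorem Frame.comap_full {G G' : Type} [Group G] [Group G'] {L : ℕ} (F : Frame G' L) (f : G →* G')
    (hf : Function.Injective f) (hF : F.Full) : (F.comap f hf).Full := by
  constructor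
  · intro g hg
    have := hF.1 (f g) (fun h => hg ((map_eq_one_iff f hf).mp h))
    rw [← map_inv] at this
    exact this
  · intro g hg
    exact hF.2 (f g) (fun h => hg ((map_eq_one_iff f hf).mp h))

/-- Groups of order at most two. -/
def smallFrame (G : Type) [Group G] [Finite G] (hG : Nat.card G ≤ 2) : Frame G 1 where
  pos _ := True
  near _ _ := False
  size _ := 0
  lab _ _ := 0
  safe _ _ := True
  sp _ _ _ _ := False
  bd := 1
  size_lt _ := one_pos
  size_inv _ := rfl
  lab_inv _ _ := rfl
  safe_inv _ _ := Iff.rfl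
  lab_lt _ _ _ := one_pos
  near_symm _ _ h := h
  near_ne _ _ h := h.elim
  near_pos _ _ h := h.elim
  near_anti _ _ h := h.elim
  near_size _ _ h := h.elim
  near_safe _ _ h := h.elim
  near_lab _ _ _ h := h.elim
  sp_swap _ _ _ _ h := h
  sp_rot _ _ _ _ h := h
  sp_mul _ _ _ _ _ h := h
  cover x y z hxy hyz hxz := by
    exfalso
    have h3 : Function.Injective ![x, y, z] := by
      intro i j hij
      fin_cases i <;> fin_cases j <;> simp_all
    have := Nat.card_le_card_of_injective _ h3
    simp at this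
    omega
  sp_free c v _ h := h 0 1 2 (by decide) (by decide) (by decide)

/-- The trivial group. -/
def trivFrame (G : Type) [Group G] [Subsingleton G] : Frame G 0 where
  pos _ := True
  near _ _ := False
  size _ := 0
  lab _ _ := 0
  safe _ _ := True
  sp _ _ _ _ := False
  bd := 1
  size_lt _ := one_pos
  size_inv _ := rfl
  lab_inv _ _ := rfl
  safe_inv _ _ := Iff.rfl
  lab_lt _ g hg := (hg (Subsingleton.elim _ _)).elim
  near_symm _ _ h := h
  near_ne _ _ h := h.elim
  near_pos _ _ h := h.elim
  near_anti _ _ h := h.elim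
  near_size _ _ h := h.elim
  near_safe _ _ h := h.elim
  near_lab _ _ _ h := h.elim
  sp_swap _ _ _ _ h := h
  sp_rot _ _ _ _ h := h
  sp_mul _ _ _ _ _ h := h
  cover x y z hxy _ _ := (hxy (Subsingleton.elim _ _)).elim
  sp_free c v _ h := h 0 1 2 (by decide) (by decide) (by decide)

theorem trivFrame_full (G : Type) [Group G] [Subsingleton G] : (trivFrame G).Full :=
  ⟨fun _ hg => (hg (Subsingleton.elim _ _)).elim, fun _ hg => (hg (Subsingleton.elim _ _)).elim⟩

end Pool.Agent.TInv
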